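import Pool.Agent.Helper42.SG.GoalsT

/-!
# Project SG (MP_a41896_nt), module T, packet NZV
-/

set_option autoImplicit false

namespace Pool.Agent.Helper32.SGT

open WeierstrassCurve Height
open Pool.Agent.Helper29.BL Pool.Agent.Helper92.Ru Pool.Agent.Helper42.SG

section rep

variable {Ω : Type} [Field Ω]

/-- the polynomial `B` -/
noncomputable def Bp (W : Affine Ω) : Polynomial Ω :=
  Polynomial.C 4 * Polynomial.X ^ 3 + Polynomial.C W.b₂ * Polynomial.X ^ 2 +
    Polynomial.C (2 * W.b₄) * Polynomial.X + Polynomial.C W.b₆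

lemma Bp_eval (W : Affine Ω) (x : Ω) : (Bp W).eval x = Bf W x := by
  unfold Bp Bf
  simp

/-- functions of the form `p(x) + y q(x)` on the curve `y² = B(x)` -/
def Rep (W : Affine Ω) (f : Ω → Ω → Ω) : Prop :=
  ∃ p r : Polynomial Ω, ∀ x y, y ^ 2 = Bf W x → f x y = p.eval x + y * r.eval x

variable {W : Affine Ω}

lemma rep_const (c : Ω) : Rep W (fun _ _ => c) :=
  ⟨Polynomial.C c, 0, fun x y _ => by simp⟩

lemma rep_x : Rep W (fun x _ => x) :=
  ⟨Polynomial.X, 0, fun x y _ => by simp⟩

lemma rep_y : Rep W (fun _ y => y) :=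
  ⟨0, 1, fun x y _ => by simp⟩

lemma rep_add {f g : Ω → Ω → Ω} (hf : Rep W f) (hg : Rep W g) :
    Rep W (fun x y => f x y + g x y) := by
  obtain ⟨p, r, h⟩ := hf
  obtain ⟨p', r', h'⟩ := hg
  refine ⟨p + p', r + r', fun x y hxy => ?_⟩
  beta_reduce
  rw [h x y hxy, h' x y hxy, Polynomial.eval_add, Polynomial.eval_add]
  ring

lemma rep_sub {f g : Ω → Ω → Ω} (hf : Rep W f) (hg : Rep W g) :
    Rep W (fun x y => f x y - g x y) := by
  obtain ⟨p, r, h⟩ := hf
  obtain ⟨p', r', h'⟩ := hg
  refine ⟨p - p', r - r', fun x y hxy => ?_⟩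
  beta_reduce
  rw [h x y hxy, h' x y hxy, Polynomial.eval_sub, Polynomial.eval_sub]
  ring

lemma rep_mul {f g : Ω → Ω → Ω} (hf : Rep W f) (hg : Rep W g) :
    Rep W (fun x y => f x y * g x y) := by
  obtain ⟨p, r, h⟩ := hf
  obtain ⟨p', r', h'⟩ := hg
  refine ⟨p * p' + Bp W * (r * r'), p * r' + p' * r, fun x y hxy => ?_⟩
  beta_reduce
  rw [h x y hxy, h' x y hxy]
  simp only [Polynomial.eval_add, Polynomial.eval_mul, Bp_eval]
  rw [← hxy]
  ring

lemma rep_pow {f : Ω → Ω → Ω} (hf : Rep W f) (n : ℕ) : Rep W (fun x y => f x y ^ n) := by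
  induction n with
  | zero =>
    have := rep_const (W := W) 1
    simpa only [pow_zero] using this
  | succ n ih =>
    have := rep_mul ih hf
    simpa only [pow_succ] using this

lemma rep_sum {ι : Type} (s : Finset ι) {f : ι → Ω → Ω → Ω} (hf : ∀ i, Rep W (f i)) :
    Rep W (fun x y => ∑ i ∈ s, f i x y) := by
  classical
  induction s using Finset.induction_on with
  | empty =>
    have := rep_const (W := W) 0
    simpa only [Finset.sum_empty] using this
  | insert a s ha ih =>
    have := rep_add (hf a) ih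
    simpa only [Finset.sum_insert ha] using this

lemma rep_two : Rep W (fun _ _ => 2) := rep_const 2

lemma rep_Ah {t z : Ω → Ω → Ω} (ht : Rep W t) (hz : Rep W z) :
    Rep W (fun x y => Ah W (t x y) (z x y)) := by
  unfold Ah
  exact rep_sub (rep_sub (rep_sub (rep_pow ht 4)
    (rep_mul (rep_mul (rep_const _) (rep_pow ht 2)) (rep_pow hz 2)))
    (rep_mul (rep_mul (rep_const _) ht) (rep_pow hz 3))) (rep_mul (rep_const _) (rep_pow hz 4))

lemma rep_Bh {t z : Ω → Ω → Ω} (ht : Rep W t) (hz : Rep W z) :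
    Rep W (fun x y => Bh W (t x y) (z x y)) := by
  unfold Bh
  exact rep_add (rep_add (rep_add (rep_mul (rep_mul (rep_const _) (rep_pow ht 3)) hz)
    (rep_mul (rep_mul (rep_const _) (rep_pow ht 2)) (rep_pow hz 2)))
    (rep_mul (rep_mul (rep_const _) ht) (rep_pow hz 3))) (rep_mul (rep_const _) (rep_pow hz 4))

lemma rep_Ch {t z : Ω → Ω → Ω} (ht : Rep W t) (hz : Rep W z) :
    Rep W (fun x y => Ch W (t x y) (z x y)) := by
  unfold Ch
  exact rep_add (rep_add (rep_add (rep_add (rep_add (rep_add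
    (rep_mul (rep_const _) (rep_pow ht 6))
    (rep_mul (rep_mul (rep_const _) (rep_pow ht 5)) hz))
    (rep_mul (rep_mul (rep_const _) (rep_pow ht 4)) (rep_pow hz 2)))
    (rep_mul (rep_mul (rep_const _) (rep_pow ht 3)) (rep_pow hz 3)))
    (rep_mul (rep_mul (rep_const _) (rep_pow ht 2)) (rep_pow hz 4)))
    (rep_mul (rep_mul (rep_const _) ht) (rep_pow hz 5)))
    (rep_mul (rep_const _) (rep_pow hz 6))

lemma rep_Ph (e : ℕ) : Rep W (fun x _ => (Ph W e x).1) ∧ Rep W (fun x _ => (Ph W e x).2) := by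
  induction e with
  | zero => exact ⟨rep_x, rep_const 1⟩
  | succ e ih => exact ⟨rep_Ah ih.1 ih.2, rep_Bh ih.1 ih.2⟩

lemma rep_Rr (e : ℕ) : Rep W (fun x _ => Rr W e x) := by
  induction e with
  | zero => exact rep_const 1
  | succ e ih => exact rep_mul ih (rep_Ch (rep_Ph e).1 (rep_Ph e).2)

lemma rep_Th (c : Ω) {t z : Ω → Ω → Ω} (ht : Rep W t) (hz : Rep W z) :
    Rep W (fun x y => Th W c (t x y) (z x y)) := by
  unfold Th
  exact rep_add (rep_add (rep_add
    (rep_mul (rep_mul rep_two (rep_add ht (rep_mul (rep_const _) hz))) (rep_mul ht (rep_const _)))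
    (rep_mul (rep_const _) (rep_mul (rep_mul ht hz) (rep_const _))))
    (rep_mul (rep_mul (rep_const _) (rep_add ht (rep_mul (rep_const _) hz))) hz))
    (rep_mul (rep_const _) (rep_pow hz 2))

lemma rep_law (e : ℕ) (c d : Ω) : Rep W (fun x y => (law W e false x c (y * d)).1) ∧
    Rep W (fun x y => (law W e false x c (y * d)).2) := by
  have h1 := (rep_Ph (W := W) e).1
  have h2 := (rep_Ph (W := W) e).2
  constructor
  · exact rep_mul rep_two (rep_pow (rep_sub h1 (rep_mul (rep_const c) h2)) 2)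
  · exact rep_add (rep_Th c h1 h2) (rep_mul (rep_mul rep_y (rep_const d)) (rep_Rr e))

end rep

section pts

variable {Ω : Type} [Field Ω] {W : Affine Ω}

lemma ps_sq (P : W.Point) (hP : P ≠ 0) : ps P ^ 2 = Bf W (xc P) := by
  cases P with
  | zero => exact absurd rfl hP
  | some x y h =>
    have he := (Affine.equation_iff x y).mp h.1
    show (2 * y + W.a₁ * x + W.a₃) ^ 2 =
      4 * x ^ 3 + W.b₂ * x ^ 2 + 2 * W.b₄ * x + W.b₆
    rw [WeierstrassCurve.b₂, WeierstrassCurve.b₄, WeierstrassCurve.b₆]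
    linear_combination 4 * he

lemma exists_point [IsAlgClosed Ω] [CharZero Ω] [W.IsElliptic] (x : Ω) :
    ∃ P : W.Point, P ≠ 0 ∧ xc P = x := by
  obtain ⟨z, hz⟩ := IsAlgClosed.exists_pow_nat_eq (Bf W x) (n := 2) (by norm_num)
  have h2 : (2 : Ω) ≠ 0 := two_ne_zero
  obtain ⟨y, hy⟩ : ∃ y, y = (z - W.a₁ * x - W.a₃) / 2 := ⟨_, rfl⟩
  have hz' : z = 2 * y + W.a₁ * x + W.a₃ := by
    rw [hy]
    field_simp
    ring
  have he : W.Equation x y := by
    rw [Affine.equation_iff]
    unfold Bf at hz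
    rw [hz', WeierstrassCurve.b₂, WeierstrassCurve.b₄, WeierstrassCurve.b₆] at hz
    have h4 : (4 : Ω) ≠ 0 := by norm_num
    apply mul_left_cancel₀ h4
    linear_combination hz
  refine ⟨Affine.Point.some x y (Affine.equation_iff_nonsingular.mp he), ?_, rfl⟩
  exact Affine.Point.some_ne_zero _

lemma fib (x : Ω) : {P : W.Point | xc P = x}.Finite := by
  by_cases h : ∃ P : W.Point, P ≠ 0 ∧ xc P = x
  · obtain ⟨P, hP0, hP⟩ := h
    apply Set.Finite.subset (s := {0, P, -P}) (by simp)
    intro R hR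
    cases R with
    | zero => left; rfl
    | some x' y' h' =>
      cases P with
      | zero => exact absurd rfl hP0
      | some x₀ y₀ h₀ =>
        right
        have hR' : x' = x := hR
        have hP' : x₀ = x := hP
        have hxx : x' = x₀ := hR'.trans hP'.symm
        subst hxx
        rcases Affine.Y_eq_of_X_eq h'.1 h₀.1 rfl with hy | hy
        · left
          subst hy
          rfl
        · right
          rw [Set.mem_singleton_iff, Affine.Point.neg_some]
          subst hy
          rfl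
  · apply Set.Finite.subset (s := {0}) (by simp)
    intro R hR
    by_contra h0
    exact h ⟨R, h0, hR⟩

lemma finpre {S : Set Ω} (hS : S.Finite) : {P : W.Point | xc P ∈ S}.Finite :=
  hS.preimage' (fun b _ => fib b)

lemma Bp_deg [CharZero Ω] : (Bp W).natDegree = 3 :=
  Polynomial.natDegree_cubic (by norm_num)

lemma Bp_ne [CharZero Ω] : Bp W ≠ 0 := by
  intro h
  have := Bp_deg (W := W)
  rw [h, Polynomial.natDegree_zero] at this
  omega

lemma torsion [CharZero Ω] [DecidableEq Ω] : {P : W.Point | 2 • P = 0}.Finite := by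
  have h1 : {P : W.Point | xc P ∈ ((Bp W).roots.toFinset : Set Ω)}.Finite :=
    finpre (Finset.finite_toSet _)
  apply Set.Finite.subset (s := {0} ∪ {P : W.Point | xc P ∈ ((Bp W).roots.toFinset : Set Ω)})
    ((Set.finite_singleton 0).union h1)
  intro P hP
  have hP' : 2 • P = 0 := hP
  by_cases h0 : P = 0
  · left; exact h0
  · right
    have hn : P = -P := by
      rw [two_nsmul] at hP'
      exact eq_neg_of_add_eq_zero_left hP'
    rw [Set.mem_ofPred_eq, Finset.mem_coe, Multiset.mem_toFinset, Polynomial.mem_roots Bp_ne,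
      Polynomial.IsRoot.def, Bp_eval, ← ps_sq P h0]
    cases P with
    | zero => exact absurd rfl h0
    | some x y h =>
      rw [Affine.Point.neg_some, Affine.Point.some.injEq] at hn
      have hy := hn.2
      rw [Affine.negY] at hy
      show (2 * y + W.a₁ * x + W.a₃) ^ 2 = 0
      have : 2 * y + W.a₁ * x + W.a₃ = 0 := by linear_combination hy
      rw [this]
      ring

lemma norm_zero_imp [CharZero Ω] {p r : Polynomial Ω} (h : p ^ 2 - Bp W * r ^ 2 = 0) :
    p = 0 ∧ r = 0 := by
  rw [sub_eq_zero] at h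
  have hr : r = 0 := by
    by_contra hr
    have h1 := congrArg Polynomial.natDegree h
    rw [Polynomial.natDegree_mul Bp_ne (pow_ne_zero 2 hr), Polynomial.natDegree_pow,
      Polynomial.natDegree_pow, Bp_deg] at h1
    omega
  refine ⟨?_, hr⟩
  rw [hr] at h
  simpa using h

end pts

/-- **NZV**. -/
theorem t_NZV (hNZ1 : NZ1) (hELAW : ELAW) : NZV := by
  classical
  intro Ω _ _ _ _ W _ Q e M ι _ a hQ ha
  cases nonempty_fintype ι
  obtain ⟨f, hf⟩ : ∃ f : ι → Ω → Ω → Ω, ∀ k x y, f k x y =
      ∑ α : Fin (4 ^ e) × Fin (M + 1), a k α * (x ^ α.1.val *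
        ((law W e false x (xc Q) (y * ps Q)).1 ^ (M - α.2.val) *
          (law W e false x (xc Q) (y * ps Q)).2 ^ α.2.val)) := ⟨_, fun _ _ _ => rfl⟩
  have hrep : ∀ k, Rep W (f k) := by
    intro k
    have h1 : f k = fun x y => ∑ α : Fin (4 ^ e) × Fin (M + 1), a k α * (x ^ α.1.val *
        ((law W e false x (xc Q) (y * ps Q)).1 ^ (M - α.2.val) *
          (law W e false x (xc Q) (y * ps Q)).2 ^ α.2.val)) := by
      funext x y
      exact hf k x y
    rw [h1]
    apply rep_sum
    intro α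
    exact rep_mul (rep_const _) (rep_mul (rep_pow rep_x _)
      (rep_mul (rep_pow (rep_law e _ _).1 _) (rep_pow (rep_law e _ _).2 _)))
  choose p r hpr using hrep
  -- the functions are not identically zero
  have hne : ∀ k, ∃ P : W.Point, P ≠ 0 ∧ f k (xc P) (ps P) ≠ 0 := by
    intro k
    obtain ⟨⟨l₀, m₀⟩, h0⟩ : ∃ α, a k α ≠ 0 := by
      by_contra hc
      push Not at hc
      exact ha k (funext hc)
    obtain ⟨g, hg⟩ : ∃ g : Fin (4 ^ e) → Polynomial Ω, ∀ l, g l =
        ∑ m : Fin (M + 1), Polynomial.C (a k (l, m)) * Polynomial.X ^ m.val := ⟨_, fun _ => rfl⟩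
    have hg0 : g l₀ ≠ 0 := by
      intro hc
      apply h0
      have := congrArg (fun s => Polynomial.coeff s m₀.val) hc
      rw [hg, Polynomial.finsetSum_coeff] at this
      simp only [Polynomial.coeff_C_mul_X_pow, Polynomial.coeff_zero] at this
      rw [Finset.sum_eq_single m₀] at this
      · simpa using this
      · intro b _ hb
        rw [if_neg]
        intro h
        exact hb (Fin.ext h.symm)
      · intro h
        exact absurd (Finset.mem_univ _) h
    have hfin : ({P : W.Point | 2 • P = 0} ∪ {Q, -Q} ∪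
        {P : W.Point | P - Q ∈ {w : W.Point | xc w ∈ ((g l₀).roots.toFinset : Set Ω)}}).Finite := by
      refine (torsion.union (by simp)).union ?_
      exact (finpre (Finset.finite_toSet _)).preimage (fun x _ y _ h => sub_left_injective h)
    have hinf : (Set.univ : Set W.Point).Infinite := by
      intro hfi
      have h1 : (Set.univ : Set Ω) ⊆ xc '' (Set.univ : Set W.Point) := by
        intro x _
        obtain ⟨P, -, hP⟩ := exists_point (W := W) x
        exact ⟨P, Set.mem_univ _, hP⟩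
      exact Set.infinite_univ ((hfi.image xc).subset h1)
    obtain ⟨R, -, hR⟩ := hinf.exists_notMem_finite hfin
    have hR1 : 2 • R ≠ 0 := fun h => hR (Or.inl (Or.inl h))
    have hR2 : R ≠ Q := fun h => hR (Or.inl (Or.inr (Or.inl h)))
    have hR3 : R ≠ -Q := fun h => hR (Or.inl (Or.inr (Or.inr h)))
    have hR4 : (g l₀).eval (xc (R - Q)) ≠ 0 := by
      intro h
      apply hR
      right
      show xc (R - Q) ∈ ((g l₀).roots.toFinset : Set Ω)
      rw [Finset.mem_coe, Multiset.mem_toFinset, Polynomial.mem_roots hg0]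
      exact h
    obtain ⟨G, hG⟩ : ∃ G : Polynomial Ω, G = ∑ l : Fin (4 ^ e),
        Polynomial.C ((g l).eval (xc (R - Q))) * Polynomial.X ^ l.val := ⟨_, rfl⟩
    have hG0 : G ≠ 0 := by
      intro hc
      apply hR4
      have := congrArg (fun s => Polynomial.coeff s l₀.val) hc
      rw [hG, Polynomial.finsetSum_coeff] at this
      simp only [Polynomial.coeff_C_mul_X_pow, Polynomial.coeff_zero] at this
      rw [Finset.sum_eq_single l₀] at this
      · simpa using this
      · intro b _ hb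
        rw [if_neg]
        intro h
        exact hb (Fin.ext h.symm)
      · intro h
        exact absurd (Finset.mem_univ _) h
    have hGd : G.natDegree < 4 ^ e := by
      have h4 : 0 < 4 ^ e := by positivity
      have : G.natDegree ≤ 4 ^ e - 1 := by
        rw [hG]
        apply Polynomial.natDegree_sum_le_of_forall_le
        intro l _
        refine (Polynomial.natDegree_C_mul_X_pow_le _ _).trans ?_
        have := l.isLt
        omega
      omega
    obtain ⟨P, hP0, hPR, hPG⟩ := hNZ1 Ω W R e G hR1 hG0 hGd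
    have hel := hELAW Ω W P Q e two_ne_zero hP0 hQ (by
      rw [hPR]
      intro h
      exact hR3 (eq_neg_of_add_eq_zero_left h))
    obtain ⟨-, hel2, -⟩ := hel
    rw [hPR] at hel2
    obtain ⟨hL1, hL2⟩ := hel2 (sub_ne_zero.mpr hR2)
    refine ⟨P, hP0, ?_⟩
    rw [hf]
    obtain ⟨L, hL⟩ : ∃ L, L = (law W e false (xc P) (xc Q) (ps P * ps Q)).1 := ⟨_, rfl⟩
    rw [hL2, ← hL]
    rw [← hL] at hL1
    have hsum : ∑ α : Fin (4 ^ e) × Fin (M + 1), a k α * (xc P ^ α.1.val *
        (L ^ (M - α.2.val) * (xc (R - Q) * L) ^ α.2.val)) = L ^ M * G.eval (xc P) := by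
      rw [hG, Polynomial.eval_finsetSum, Fintype.sum_prod_type, Finset.mul_sum]
      apply Finset.sum_congr rfl
      intro l _
      rw [hg, Polynomial.eval_mul, Polynomial.eval_C, Polynomial.eval_pow, Polynomial.eval_X,
        Polynomial.eval_finsetSum, Finset.sum_mul, Finset.mul_sum]
      apply Finset.sum_congr rfl
      intro m _
      rw [Polynomial.eval_mul, Polynomial.eval_C, Polynomial.eval_pow, Polynomial.eval_X]
      have hm : L ^ M = L ^ (M - m.val) * L ^ m.val := by
        rw [← pow_add]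
        congr 1
        have := m.isLt
        omega
      show a k (l, m) * (xc P ^ l.val * (L ^ (M - m.val) * (xc (R - Q) * L) ^ m.val)) = _
      rw [hm, mul_pow]
      ring
    rw [hsum]
    exact mul_ne_zero (pow_ne_zero _ hL1) hPG
  -- the norms are not zero
  have hN : ∀ k, p k ^ 2 - Bp W * r k ^ 2 ≠ 0 := by
    intro k hc
    obtain ⟨h1, h2⟩ := norm_zero_imp hc
    obtain ⟨P, hP0, hP⟩ := hne k
    apply hP
    rw [hpr k _ _ (ps_sq P hP0), h1, h2]
    simp
  obtain ⟨x, hx⟩ : ∃ x : Ω, (∏ k, (p k ^ 2 - Bp W * r k ^ 2)).eval x ≠ 0 := by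
    by_contra hc
    push Not at hc
    apply Finset.prod_ne_zero_iff.mpr (fun k _ => hN k)
    exact Polynomial.funext (fun x => by rw [hc x, Polynomial.eval_zero])
  obtain ⟨P, hP0, hPx⟩ := exists_point (W := W) x
  refine ⟨P, hP0, fun k s => ?_⟩
  have hs : ((s : ℤ) : Ω) ^ 2 = 1 := by
    rcases Int.units_eq_one_or s with h | h
    · rw [h]; simp
    · rw [h]; simp
  have hsy : (((s : ℤ) : Ω) * ps P) ^ 2 = Bf W (xc P) := by
    rw [mul_pow, hs, one_mul, ps_sq P hP0]
  have h1 := hf k (xc P) (((s : ℤ) : Ω) * ps P)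
  rw [← h1, hpr k _ _ hsy]
  intro hc
  rw [Polynomial.eval_prod] at hx
  have hx' := Finset.prod_ne_zero_iff.mp hx k (Finset.mem_univ _)
  apply hx'
  rw [← hPx, Polynomial.eval_sub, Polynomial.eval_mul, Polynomial.eval_pow, Polynomial.eval_pow,
    Bp_eval, ← hsy]
  linear_combination ((p k).eval (xc P) - ((s : ℤ) : Ω) * ps P * (r k).eval (xc P)) * hc

end Pool.Agent.Helper32.SGT
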